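import Mathlib

set_option autoImplicit false

/-! Abelian squares and prefix positions. -/

namespace Pool.Agent.H656R2.AS

/-- Abelian-square-free words. -/
def AF {α : Type*} (w : List α) : Prop :=
  ∀ u x y v : List α, w = u ++ x ++ y ++ v → x ≠ [] → ¬ x.Perm y

theorem AF.factor {α : Type*} {a b w z : List α} (h : AF w) (hz : a ++ z ++ b = w) : AF z := by
  subst hz
  rintro u x y v rfl hx hp
  exact h (a ++ u) x y (v ++ b) (by simp) hx hp

theorem AF.reverse {α : Type*} {w : List α} (h : AF w) : AF w.reverse := by
  intro u x y v e hx hp
  have e' : w = v.reverse ++ y.reverse ++ x.reverse ++ u.reverse := by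
    have := congrArg List.reverse e
    simpa using this
  refine h _ _ _ _ e' ?_ ?_
  · intro hy
    have : y = [] := by simpa using hy
    subst this
    exact hx (List.perm_nil.1 hp)
  · exact (List.reverse_perm y).trans (hp.symm.trans (List.reverse_perm x).symm)

theorem AF.map {α β : Type*} {w : List α} (h : AF w) (f : α → β) (g : β → α)
    (hg : ∀ a, g (f a) = a) : AF (w.map f) := by
  intro u x y v e hx hp
  have e' : w = u.map g ++ x.map g ++ y.map g ++ v.map g := by
    have := congrArg (List.map g) e
    have h2 : (w.map f).map g = w := by
      rw [List.map_map]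
      conv_rhs => rw [← List.map_id w]
      apply List.map_congr_left
      intro a _
      exact hg a
    rw [h2] at this
    simpa using this
  refine h _ _ _ _ e' (by simpa using hx) (hp.map g)

theorem AF.unmap {α β : Type*} {w : List α} (f : α → β) (h : AF (w.map f)) : AF w := by
  rintro u x y v rfl hx hp
  exact h (u.map f) (x.map f) (y.map f) (v.map f) (by simp) (by simpa using hx) (hp.map f)

/-- Number of occurrences of `c` among the first `i` letters. -/
def pc {α : Type*} [DecidableEq α] (w : List α) (i : ℕ) (c : α) : ℤ := ((w.take i).count c : ℕ)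

/-- The three positions `i, j, k` delimit an abelian square. -/
def Bad {α : Type*} [DecidableEq α] (w : List α) (i j k : ℕ) : Prop :=
  ∀ c, pc w i c + pc w k c = 2 * pc w j c

theorem split_le {α : Type*} {A B C D : List α} (h : A ++ B = C ++ D) (hl : A.length ≤ C.length) :
    ∃ E, C = A ++ E ∧ B = E ++ D := by
  rcases List.append_eq_append_iff.1 h with ⟨a', h1, h2⟩ | ⟨c', h1, h2⟩
  · exact ⟨a', h1, h2⟩
  · have : c' = [] := by
      have := congrArg List.length h1
      simp at this
      exact List.length_eq_zero_iff.1 (by omega)
    subst this
    exact ⟨[], by simpa using h1.symm, by simpa using h2.symm⟩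

theorem not_bad_of_AF {α : Type*} [DecidableEq α] {w : List α} (h : AF w) {i j k : ℕ}
    (hij : i < j) (hjk : j < k) (hk : k ≤ w.length) : ¬ Bad w i j k := by
  intro hb
  have e1 : w.take j = w.take i ++ (w.drop i).take (j - i) := by
    rw [← List.take_add]; congr 1; omega
  have e2 : w.take k = w.take j ++ (w.drop j).take (k - j) := by
    rw [← List.take_add]; congr 1; omega
  refine h (w.take i) ((w.drop i).take (j - i)) ((w.drop j).take (k - j)) (w.drop k) ?_ ?_ ?_
  · rw [← e1, ← e2, List.take_append_drop]
  · intro h0
    have := congrArg List.length h0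
    simp at this
    omega
  · rw [List.perm_iff_count]
    intro c
    have h1 := hb c
    simp only [pc] at h1
    rw [e2, List.count_append, e1, List.count_append] at h1
    push_cast at h1
    have : ((((w.drop i).take (j - i)).count c : ℕ) : ℤ) = (((w.drop j).take (k - j)).count c : ℕ) := by
      linarith
    exact_mod_cast this

theorem AF_of_not_bad {α : Type*} [DecidableEq α] {w : List α}
    (h : ∀ i j k : ℕ, i < j → j < k → k ≤ w.length → ¬ Bad w i j k) : AF w := by
  rintro u x y v rfl hx hp
  have hl := hp.length_eq
  have hx0 : 0 < x.length := List.length_pos_iff.2 hx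
  refine h u.length (u.length + x.length) (u.length + x.length + y.length) (by omega) (by omega)
    (by simp; omega) ?_
  intro c
  have t1 : (u ++ x ++ y ++ v).take u.length = u := by simp
  have t2 : (u ++ x ++ y ++ v).take (u.length + x.length) = u ++ x := by
    rw [List.append_assoc (u ++ x), ← List.length_append, List.take_left]
  have t3 : (u ++ x ++ y ++ v).take (u.length + x.length + y.length) = u ++ x ++ y := by
    rw [← List.length_append, ← List.length_append, List.take_left]
  simp only [pc, t1, t2, t3, List.count_append, hp.count_eq c]
  push_cast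
  ring

end Pool.Agent.H656R2.AS
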