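import Pool.Agent.Helper336.CF

set_option autoImplicit false

/-! Context-free building blocks. -/

namespace Pool.Agent.H656R2.AS

open Pool.Agent.Helper336.CF

variable {T : Type}

/-- Nested wrapping by pairs. -/
inductive Nest (R : Set (List T × List T)) : List T → Prop
  | nil : Nest R []
  | step (a b w : List T) : (a, b) ∈ R → Nest R w → Nest R (a ++ w ++ b)

theorem cf_nest (R : Set (List T × List T)) (hR : R.Finite) : IsCF {w | Nest R w} := by
  classical
  let g0 : ContextFreeGrammar T := ⟨PUnit, PUnit.unit, ∅⟩
  refine ext_cf g0 g0 (insert [] (hR.toFinset.image (fun p => p.1.map Symbol.terminal ++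
    [Symbol.nonterminal none] ++ p.2.map Symbol.terminal))) _ ?_ ?_
  · intro o ho w hw
    rw [Finset.mem_insert, Finset.mem_image] at ho
    rcases ho with rfl | ⟨⟨a, b⟩, hab, rfl⟩
    · simp only [Comp] at hw
      subst hw
      exact Nest.nil
    · rw [comp_append] at hw
      obtain ⟨w1, w2, rfl, hw1, hw2⟩ := hw
      rw [comp_append] at hw1
      obtain ⟨w3, w4, rfl, hw3, hw4⟩ := hw1
      rw [comp_map_terminal] at hw2 hw3
      subst hw2 hw3
      obtain ⟨w5, w6, rfl, h5, h6⟩ := hw4
      simp only [Comp] at h6
      subst h6
      rw [List.append_nil]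
      exact Nest.step _ _ w5 (hR.mem_toFinset.1 hab) h5
  · intro S _ _ hS w hw
    induction hw with
    | nil => exact hS [] (Finset.mem_insert_self _ _) [] rfl
    | step a b w hab _ ih =>
      refine hS _ (Finset.mem_insert_of_mem (Finset.mem_image.2 ⟨(a, b), hR.mem_toFinset.2 hab, rfl⟩)) _ ?_
      rw [comp_append]
      refine ⟨a ++ w, b, rfl, ?_, (comp_map_terminal S b b).2 rfl⟩
      rw [comp_append]
      exact ⟨a, w, rfl, (comp_map_terminal S a a).2 rfl, w, [], by simp, ih, rfl⟩

theorem cf_fin {S : Set (List T)} (hS : S.Finite) : IsCF S := by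
  have := cf_finite (T := T) hS.toFinset
  convert this using 1
  ext w
  simp

/-- Words over a set of letters. -/
theorem cf_words [Finite T] (P : T → Prop) : IsCF {w : List T | ∀ a ∈ w, P a} := by
  have h1 := cf_nest {p : List T × List T | ∃ a, P a ∧ p = ([a], [])} (by
    refine (Set.finite_range (fun a : T => (([a], []) : List T × List T))).subset ?_
    rintro p ⟨a, _, rfl⟩
    exact ⟨a, rfl⟩)
  convert h1 using 1
  ext w
  simp only [Set.mem_ofPred_eq]
  constructor
  · intro hw
    induction w with
    | nil => exact Nest.nil
    | cons a w ih =>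
      have := Nest.step (R := {p : List T × List T | ∃ a, P a ∧ p = ([a], [])}) [a] [] w
        ⟨a, hw a (by simp), rfl⟩ (ih (fun b hb => hw b (by simp [hb])))
      simpa using this
  · intro hw
    induction hw with
    | nil => simp
    | step a b w hab _ ih =>
      obtain ⟨c, hc, e⟩ := hab
      rw [Prod.mk.injEq] at e
      obtain ⟨rfl, rfl⟩ := e
      intro d hd
      simp only [List.append_nil, List.cons_append, List.nil_append, List.mem_cons] at hd
      rcases hd with rfl | hd
      · exact hc
      · exact ih d hd

theorem cf_univ' [Finite T] : IsCF (Set.univ : Set (List T)) := by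
  have := cf_words (T := T) (fun _ => True)
  simpa using this

/-- Matching words: `u v` with `u` over `P`, `v` over `Q`, and `|v| = m |u|`. -/
theorem cf_match [Finite T] (P Q : T → Prop) (m : ℕ) :
    IsCF {w : List T | ∃ u v, w = u ++ v ∧ (∀ a ∈ u, P a) ∧ (∀ a ∈ v, Q a) ∧
      v.length = m * u.length} := by
  have h1 := cf_nest {p : List T × List T | ∃ a v, P a ∧ (∀ b ∈ v, Q b) ∧ v.length = m ∧
      p = ([a], v)} (by
    have hf : (Set.univ : Set T).Finite := Set.finite_univ
    have hl : {v : List T | v.length = m}.Finite := List.finite_length_eq T m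
    refine ((hf.prod hl).image (fun q : T × List T => (([q.1], q.2) : List T × List T))).subset ?_
    rintro p ⟨a, v, _, _, hv, rfl⟩
    exact ⟨(a, v), ⟨Set.mem_univ _, hv⟩, rfl⟩)
  convert h1 using 1
  ext w
  simp only [Set.mem_ofPred_eq]
  constructor
  · rintro ⟨u, v, rfl, hu, hv, hl⟩
    induction u generalizing v with
    | nil =>
      have : v = [] := List.length_eq_zero_iff.1 (by simpa using hl)
      subst this
      exact Nest.nil
    | cons a u ih =>
      rw [List.length_cons] at hl
      have e : v = v.take (m * u.length) ++ v.drop (m * u.length) := by simp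
      have hlt : (v.take (m * u.length)).length = m * u.length := by
        rw [List.length_take]
        have : m * u.length ≤ v.length := by rw [hl]; exact Nat.mul_le_mul_left _ (by omega)
        exact min_eq_left this
      have hld : (v.drop (m * u.length)).length = m := by
        rw [List.length_drop, hl, mul_add, mul_one]; omega
      have h2 := ih (v.take (m * u.length)) (fun b hb => hu b (by simp [hb]))
        (fun b hb => hv b (List.mem_of_mem_take hb)) hlt
      have := Nest.step _ _ _ (R := {p : List T × List T | ∃ a v, P a ∧ (∀ b ∈ v, Q b) ∧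
        v.length = m ∧ p = ([a], v)}) ⟨a, v.drop (m * u.length), hu a (by simp),
        (fun b hb => hv b (List.mem_of_mem_drop hb)), hld, rfl⟩ h2
      rw [e]
      simpa using this
  · intro hw
    induction hw with
    | nil => exact ⟨[], [], by simp⟩
    | step a b w hab _ ih =>
      obtain ⟨c, v, hc, hv, hl, e⟩ := hab
      rw [Prod.mk.injEq] at e
      obtain ⟨rfl, rfl⟩ := e
      obtain ⟨u', v', rfl, hu', hv', hl'⟩ := ih
      refine ⟨c :: u', v' ++ b, by simp, ?_, ?_, ?_⟩
      · intro d hd
        rcases List.mem_cons.1 hd with rfl | hd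
        · exact hc
        · exact hu' d hd
      · intro d hd
        rcases List.mem_append.1 hd with hd | hd
        · exact hv' d hd
        · exact hv d hd
      · rw [List.length_append, hl', hl, List.length_cons]; ring

/-- Words that are empty or end in a letter satisfying `P`. -/
theorem cf_last [Finite T] (P : T → Prop) : IsCF {w : List T | ∀ c, c ∈ w.getLast? → P c} := by
  have hf : {w : List T | ∃ c, P c ∧ w = [c]}.Finite := by
    refine (Set.finite_range (fun a : T => ([a] : List T))).subset ?_
    rintro p ⟨a, _, rfl⟩
    exact ⟨a, rfl⟩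
  have h1 := cf_union (cf_singleton (T := T) []) (cf_cat (cf_univ' (T := T)) (cf_fin hf))
  convert h1 using 1
  ext w
  simp only [Set.mem_union, Set.mem_singleton_iff, Set.mem_ofPred_eq, cat, Set.mem_univ, true_and]
  constructor
  · intro hw
    rcases List.eq_nil_or_concat w with rfl | ⟨u, c, rfl⟩
    · exact Or.inl rfl
    · right
      exact ⟨u, [c], ⟨c, hw c (by simp), rfl⟩, by simp⟩
  · rintro (rfl | ⟨u, _, ⟨c, hc, rfl⟩, rfl⟩)
    · simp
    · intro d hd
      simp at hd
      exact hd ▸ hc

end Pool.Agent.H656R2.AS
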