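import Pool.Agent.H656R2.AS.Sound

set_option autoImplicit false

/-! Every word outside the language is a prefix of the infinite word. -/

namespace Pool.Agent.H656R2.AS

theorem struct (N : ℕ) (w s : List (Fin 24)) (h : W N = w ++ s) (hs : s ≠ []) :
    ∃ n r e t, w = W n ++ r ∧ cb n = r ++ e :: t := by
  induction N generalizing s with
  | zero =>
    have := congrArg List.length h
    have h2 : 0 < s.length := List.length_pos_iff.2 hs
    simp [W] at this
    omega
  | succ N ih =>
    have h1 : W (N + 1) = W N ++ cb N := rfl
    rw [h1] at h
    by_cases hl : (W N).length ≤ w.length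
    · obtain ⟨E, h2, h3⟩ := split_le h hl
      rcases s with _ | ⟨e, t⟩
      · exact absurd rfl hs
      · exact ⟨N, E, e, t, h2, h3⟩
    · push Not at hl
      obtain ⟨E, h2, h3⟩ := split_le h.symm hl.le
      refine ih E h2 ?_
      rintro rfl
      rw [h2] at hl
      simp at hl

theorem dec {α β : Type*} (g : α → List β) (y : List α) (r : List β) (e : β) (t : List β)
    (h : y.flatMap g = r ++ e :: t) :
    ∃ y1 c y2 z t', y = y1 ++ c :: y2 ∧ r = y1.flatMap g ++ z ∧ g c = z ++ e :: t' := by
  induction y generalizing r with
  | nil =>
    have := congrArg List.length h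
    simp at this
  | cons c y ih =>
    rw [List.flatMap_cons] at h
    by_cases hl : (g c).length ≤ r.length
    · obtain ⟨E, h2, h3⟩ := split_le h hl
      obtain ⟨y1, c', y2, z, t', e1, e2, e3⟩ := ih E h3
      exact ⟨c :: y1, c', y2, z, t', by rw [e1]; rfl, by rw [h2, e2]; simp, e3⟩
    · push Not at hl
      obtain ⟨E, h2, h3⟩ := split_le h.symm hl.le
      rcases E with _ | ⟨e', E⟩
      · rw [h2] at hl
        simp at hl
      · have : e = e' := by simpa using congrArg List.head? h3
        subst this
        exact ⟨[], c, y, r, E, rfl, by simp, h2⟩

theorem W_mem_PW (n : ℕ) : W n ∈ PW (n : ZMod 3) := by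
  intro c hc
  rcases n with _ | n
  · simp [W] at hc
  · have h1 : W (n + 1) = W n ++ cb n := rfl
    rw [h1] at hc
    rw [cls_cb (last_append (cb_ne_nil n) hc)]
    exact cast_ne n

theorem complete (w : List (Fin 24)) (hw : w ∉ Lg) : ∃ N, w <+: W N := by
  induction w using List.reverseRecOn with
  | nil => exact ⟨0, List.nil_prefix⟩
  | append_singleton w d ih =>
    have hw' : w ∉ Lg := fun h => hw (Lg_right h)
    obtain ⟨N, s, hN⟩ := ih hw'
    obtain ⟨n, r, e, t, h1, h2⟩ := struct (N + 1) w (s ++ cb N)
      (by rw [W, ← hN]; simp) (by simp [cb_ne_nil])
    suffices hde : d = e by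
      subst hde
      refine ⟨n + 1, t, ?_⟩
      rw [W, h1, h2]; simp
    by_contra hde
    apply hw
    rw [mem_Lg]
    rcases n with _ | m
    · -- first letter
      have h3 : cb 0 = [code 0 0] := by simp [cb, bk]
      rw [h3] at h2
      rcases r with _ | ⟨x, r⟩
      · right; left
        have : code 0 0 = e := by simpa using congrArg List.head? h2
        refine ⟨d, [], ?_, ?_⟩
        · rw [h1]; simp [W]
        · rw [this]; exact hde
      · have := congrArg List.length h2
        simp at this
    · have hcls : ((m + 1 : ℕ) : ZMod 3) = (m : ZMod 3) + 1 := Nat.cast_succ m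
      by_cases hd : cls d = m
      · rcases List.eq_nil_or_concat r with rfl | ⟨r', x, rfl⟩
        · rcases m with _ | k
          · right; right; left
            have h3 : cb 0 = [code 0 0] := by simp [cb, bk]
            refine ⟨code 0 0, d, [], ?_, ?_⟩
            · rw [h1]; simp [W, h3]
            · simpa using hd
          · right; right; right; right
            -- block k = a :: u2, block k+1 = v1 ++ v
            obtain ⟨a, u2, hau⟩ : ∃ a u2, cb k = a :: u2 := by
              rcases hcb : cb k with _ | ⟨a, u2⟩
              · exact absurd hcb (cb_ne_nil k)
              · exact ⟨a, u2, rfl⟩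
            have hlen := cb_length_succ k
            rw [hau, List.length_cons] at hlen
            have hk : ((k + 1 : ℕ) : ZMod 3) = (k : ZMod 3) + 1 := Nat.cast_succ k
            refine ⟨k, W k, a, u2 ++ (cb (k + 1)).take (7 * u2.length),
              (cb (k + 1)).drop (7 * u2.length), d, [], W_mem_PW k, ?_, ?_, ?_, ?_, ?_, ?_⟩
            · exact cls_cb (by rw [hau]; simp)
            · refine ⟨_, _, rfl, ?_, ?_, ?_⟩
              · intro b hb
                exact cls_cb (by rw [hau]; simp [hb])
              · intro b hb
                rw [← hk]
                exact cls_cb (List.mem_of_mem_take hb)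
              · rw [List.length_take, hlen]
                omega
            · intro b hb
              rw [← hk]
              exact cls_cb (List.mem_of_mem_drop hb)
            · rw [List.length_drop, hlen]
              omega
            · rw [hd, hk]
            · have h5 : W (k + 1 + 1) = W k ++ cb k ++ cb (k + 1) := rfl
              rw [h1, h5, hau]
              have h6 : (cb (k + 1)).take (7 * u2.length) ++ ((cb (k + 1)).drop (7 * u2.length) ++ [d]) =
                  cb (k + 1) ++ [d] := by
                rw [← List.append_assoc, List.take_append_drop]
              simp [h6]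
        · left
          rw [List.concat_eq_append] at h1 h2
          refine ⟨W (m + 1) ++ r', x, d, [], ?_, ?_, ?_⟩
          · rw [h1]; simp
          · have : cls x = ((m + 1 : ℕ) : ZMod 3) := cls_cb (by rw [h2]; simp)
            rw [hd, this]
            exact cast_ne m
          · have : cls x = ((m + 1 : ℕ) : ZMod 3) := cls_cb (by rw [h2]; simp)
            rw [hd, this, ← Nat.cast_succ]
            exact cast_ne2 m
      · right; right; right; left
        have h3 := h2
        rw [cb_succ] at h3
        obtain ⟨y1, c, y2, z, t', e1, e2, e3⟩ := dec _ _ _ _ _ h3
        have hbk : bk m = y2.reverse ++ ([c] ++ y1.reverse) := by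
          have := congrArg List.reverse e1
          simpa using this
        refine ⟨m, c, W m, y2.reverse.map (code m),
          y1.reverse.map (code m) ++ y1.flatMap (Bb ((m : ZMod 3) + 1)), z ++ [d], [],
          W_mem_PW m, ?_, ?_, ?_, ?_⟩
        · intro a ha
          simp only [List.mem_map] at ha
          obtain ⟨b, _, rfl⟩ := ha
          exact cls_code _ _
        · refine ⟨_, _, rfl, ?_, ?_, ?_⟩
          · intro a ha
            simp only [List.mem_map] at ha
            obtain ⟨b, _, rfl⟩ := ha
            exact cls_code _ _
          · intro a ha
            simp only [List.mem_flatMap] at ha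
            obtain ⟨b, _, ha⟩ := ha
            exact cls_Bb ha
          · rw [flatMap_Bb_length]; simp
        · refine ⟨z, d, rfl, ⟨_, e3.symm⟩, ?_, hd, ?_⟩
          · have := congrArg List.length e3
            rw [Bb_length] at this
            simp only [List.length_append, List.length_cons] at this
            omega
          · rintro ⟨t2, h4⟩
            rw [e3, List.append_assoc] at h4
            have := List.append_cancel_left h4
            simp only [List.cons_append, List.nil_append, List.cons.injEq] at this
            exact hde this.1
        · have h5 : W (m + 1) = W m ++ cb m := rfl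
          have h6 : cb m = y2.reverse.map (code m) ++ ([code m c] ++ y1.reverse.map (code m)) := by
            rw [cb, hbk]; simp
          rw [h1, h5, h6, e2]
          simp

end Pool.Agent.H656R2.AS
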