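import Pool.Agent.H656R2.AS.Words
import Pool.Agent.H656R2.AS.CFG

set_option autoImplicit false

/-! The context-free language and its complement. -/

namespace Pool.Agent.H656R2.AS

open Pool.Agent.Helper336.CF

/-- Words empty or ending in a letter of class `≠ i`. -/
def PW (i : ZMod 3) : Set (List (Fin 24)) := {p | ∀ c, c ∈ p.getLast? → cls c ≠ i}

/-- Words over class `i`. -/
def UW (i : ZMod 3) : Set (List (Fin 24)) := {u | ∀ a ∈ u, cls a = i}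

/-- Matching words. -/
def EW (i : ZMod 3) : Set (List (Fin 24)) :=
  {w | ∃ u v, w = u ++ v ∧ (∀ a ∈ u, cls a = i) ∧ (∀ a ∈ v, cls a = i + 1) ∧
    v.length = 7 * u.length}

/-- Coded reversed image of a letter. -/
def Bb (i : ZMod 3) (c : Fin 8) : List (Fin 24) := ((h c).reverse).map (code i)

/-- Mismatches with `Bb (i + 1) c`. -/
def FW (i : ZMod 3) (c : Fin 8) : Set (List (Fin 24)) :=
  {x | ∃ z d, x = z ++ [d] ∧ z <+: Bb (i + 1) c ∧ z.length < 7 ∧ cls d ≠ i ∧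
    ¬ (z ++ [d]) <+: Bb (i + 1) c}

/-- Local errors. -/
def L1 : Set (List (Fin 24)) :=
  {w | ∃ p c d s, w = p ++ ([c, d] ++ s) ∧ cls d ≠ cls c ∧ cls d ≠ cls c + 1}

/-- Wrong first letter. -/
def L2 : Set (List (Fin 24)) := {w | ∃ c s, w = [c] ++ s ∧ c ≠ code 0 0}

/-- First block too long. -/
def L2' : Set (List (Fin 24)) := {w | ∃ c d s, w = [c, d] ++ s ∧ cls d = 0}

/-- Next block has a mismatch or is too short. -/
def L3 (i : ZMod 3) (c : Fin 8) : Set (List (Fin 24)) :=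
  {w | ∃ p u e f s, p ∈ PW i ∧ u ∈ UW i ∧ e ∈ EW i ∧ f ∈ FW i c ∧
    w = p ++ (u ++ ([code i c] ++ (e ++ (f ++ s))))}

/-- Next block too long. -/
def L4 (i : ZMod 3) : Set (List (Fin 24)) :=
  {w | ∃ p a e v d s, p ∈ PW i ∧ cls a = i ∧ e ∈ EW i ∧ (∀ b ∈ v, cls b = i + 1) ∧
    v.length = 7 ∧ cls d = i + 1 ∧ w = p ++ ([a] ++ (e ++ (v ++ ([d] ++ s))))}

/-- The language. -/
def Lg : Set (List (Fin 24)) :=
  L1 ∪ L2 ∪ L2' ∪ (⋃ q ∈ (Set.univ : Set (ZMod 3 × Fin 8)), L3 q.1 q.2) ∪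
    (⋃ i ∈ (Set.univ : Set (ZMod 3)), L4 i)

theorem cf_L1 : IsCF L1 := by
  have hf : {w : List (Fin 24) | ∃ c d, w = [c, d] ∧ cls d ≠ cls c ∧ cls d ≠ cls c + 1}.Finite := by
    refine (List.finite_length_eq (Fin 24) 2).subset ?_
    rintro w ⟨c, d, rfl, _⟩
    rfl
  have := cf_cat (cf_univ' (T := Fin 24)) (cf_cat (cf_fin hf) (cf_univ' (T := Fin 24)))
  convert this using 1
  ext w
  simp only [L1, cat, Set.mem_ofPred_eq, Set.mem_univ, true_and]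
  constructor
  · rintro ⟨p, c, d, s, rfl, h1, h2⟩
    exact ⟨p, _, ⟨_, ⟨c, d, rfl, h1, h2⟩, s, rfl⟩, rfl⟩
  · rintro ⟨p, _, ⟨_, ⟨c, d, rfl, h1, h2⟩, s, rfl⟩, rfl⟩
    exact ⟨p, c, d, s, rfl, h1, h2⟩

theorem cf_L2 : IsCF L2 := by
  have hf : {w : List (Fin 24) | ∃ c, w = [c] ∧ c ≠ code 0 0}.Finite := by
    refine (List.finite_length_eq (Fin 24) 1).subset ?_
    rintro w ⟨c, rfl, _⟩
    rfl
  have := cf_cat (cf_fin hf) (cf_univ' (T := Fin 24))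
  convert this using 1
  ext w
  simp only [L2, cat, Set.mem_ofPred_eq, Set.mem_univ, true_and]
  constructor
  · rintro ⟨c, s, rfl, h1⟩
    exact ⟨_, ⟨c, rfl, h1⟩, s, rfl⟩
  · rintro ⟨_, ⟨c, rfl, h1⟩, s, rfl⟩
    exact ⟨c, s, rfl, h1⟩

theorem cf_L2' : IsCF L2' := by
  have hf : {w : List (Fin 24) | ∃ c d, w = [c, d] ∧ cls d = 0}.Finite := by
    refine (List.finite_length_eq (Fin 24) 2).subset ?_
    rintro w ⟨c, d, rfl, _⟩
    rfl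
  have := cf_cat (cf_fin hf) (cf_univ' (T := Fin 24))
  convert this using 1
  ext w
  simp only [L2', cat, Set.mem_ofPred_eq, Set.mem_univ, true_and]
  constructor
  · rintro ⟨c, d, s, rfl, h1⟩
    exact ⟨_, ⟨c, d, rfl, h1⟩, s, rfl⟩
  · rintro ⟨_, ⟨c, d, rfl, h1⟩, s, rfl⟩
    exact ⟨c, d, s, rfl, h1⟩

theorem cf_PW (i : ZMod 3) : IsCF (PW i) := cf_last (fun c : Fin 24 => cls c ≠ i)

theorem cf_UW (i : ZMod 3) : IsCF (UW i) := cf_words (fun c : Fin 24 => cls c = i)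

theorem cf_EW (i : ZMod 3) : IsCF (EW i) :=
  cf_match (fun c : Fin 24 => cls c = i) (fun c : Fin 24 => cls c = i + 1) 7

theorem cf_FW (i : ZMod 3) (c : Fin 8) : IsCF (FW i c) := by
  apply cf_fin
  refine (List.finite_length_le (Fin 24) 7).subset ?_
  rintro w ⟨z, d, rfl, _, hz, _⟩
  simp only [Set.mem_ofPred_eq, List.length_append, List.length_cons, List.length_nil]
  omega

theorem cf_L3 (i : ZMod 3) (c : Fin 8) : IsCF (L3 i c) := by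
  have := cf_cat (cf_PW i) (cf_cat (cf_UW i) (cf_cat (cf_singleton [code i c])
    (cf_cat (cf_EW i) (cf_cat (cf_FW i c) (cf_univ' (T := Fin 24))))))
  convert this using 1
  ext w
  simp only [L3, cat, Set.mem_ofPred_eq, Set.mem_univ, true_and, Set.mem_singleton_iff]
  constructor
  · rintro ⟨p, u, e, f, s, h1, h2, h3, h4, rfl⟩
    exact ⟨p, h1, _, ⟨u, h2, _, ⟨_, rfl, _, ⟨e, h3, _, ⟨f, h4, s, rfl⟩, rfl⟩, rfl⟩, rfl⟩, rfl⟩
  · rintro ⟨p, h1, _, ⟨u, h2, _, ⟨_, rfl, _, ⟨e, h3, _, ⟨f, h4, s, rfl⟩, rfl⟩, rfl⟩, rfl⟩, rfl⟩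
    exact ⟨p, u, e, f, s, h1, h2, h3, h4, rfl⟩

theorem cf_L4 (i : ZMod 3) : IsCF (L4 i) := by
  have hf1 : {w : List (Fin 24) | ∃ a, w = [a] ∧ cls a = i}.Finite := by
    refine (List.finite_length_eq (Fin 24) 1).subset ?_
    rintro w ⟨c, rfl, _⟩
    rfl
  have hf2 : {v : List (Fin 24) | (∀ b ∈ v, cls b = i + 1) ∧ v.length = 7}.Finite := by
    refine (List.finite_length_eq (Fin 24) 7).subset ?_
    rintro w ⟨_, h⟩
    exact h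
  have hf3 : {w : List (Fin 24) | ∃ a, w = [a] ∧ cls a = i + 1}.Finite := by
    refine (List.finite_length_eq (Fin 24) 1).subset ?_
    rintro w ⟨c, rfl, _⟩
    rfl
  have := cf_cat (cf_PW i) (cf_cat (cf_fin hf1) (cf_cat (cf_EW i) (cf_cat (cf_fin hf2)
    (cf_cat (cf_fin hf3) (cf_univ' (T := Fin 24))))))
  convert this using 1
  ext w
  simp only [L4, cat, Set.mem_ofPred_eq, Set.mem_univ, true_and]
  constructor
  · rintro ⟨p, a, e, v, d, s, h1, h2, h3, h4, h5, h6, rfl⟩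
    exact ⟨p, h1, _, ⟨_, ⟨a, rfl, h2⟩, _, ⟨e, h3, _, ⟨v, ⟨h4, h5⟩, _, ⟨_, ⟨d, rfl, h6⟩, s, rfl⟩,
      rfl⟩, rfl⟩, rfl⟩, rfl⟩
  · rintro ⟨p, h1, _, ⟨_, ⟨a, rfl, h2⟩, _, ⟨e, h3, _, ⟨v, ⟨h4, h5⟩, _, ⟨_, ⟨d, rfl, h6⟩, s, rfl⟩,
      rfl⟩, rfl⟩, rfl⟩, rfl⟩
    exact ⟨p, a, e, v, d, s, h1, h2, h3, h4, h5, h6, rfl⟩

theorem cf_Lg : IsCF Lg :=
  cf_union (cf_union (cf_union (cf_union cf_L1 cf_L2) cf_L2')
    (cf_iUnion _ Set.finite_univ _ (fun q _ => cf_L3 q.1 q.2)))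
    (cf_iUnion _ Set.finite_univ _ (fun i _ => cf_L4 i))

theorem mem_Lg {w : List (Fin 24)} : w ∈ Lg ↔ w ∈ L1 ∨ w ∈ L2 ∨ w ∈ L2' ∨ (∃ i c, w ∈ L3 i c) ∨
    (∃ i, w ∈ L4 i) := by
  simp only [Lg, Set.mem_union, Set.mem_iUnion, Set.mem_univ, Prod.exists, exists_prop, true_and]
  simp only [or_assoc]

theorem Lg_right {w t : List (Fin 24)} (h : w ∈ Lg) : w ++ t ∈ Lg := by
  rw [mem_Lg] at h ⊢
  rcases h with ⟨p, c, d, s, rfl, h⟩ | ⟨c, s, rfl, h⟩ | ⟨c, d, s, rfl, h⟩ |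
    ⟨i, c, p, u, e, f, s, h1, h2, h3, h4, rfl⟩ |
    ⟨i, p, a, e, v, d, s, h1, h2, h3, h4, h5, h6, rfl⟩
  · exact Or.inl ⟨p, c, d, s ++ t, by simp, h⟩
  · exact Or.inr (Or.inl ⟨c, s ++ t, by simp, h⟩)
  · exact Or.inr (Or.inr (Or.inl ⟨c, d, s ++ t, by simp, h⟩))
  · exact Or.inr (Or.inr (Or.inr (Or.inl ⟨i, c, p, u, e, f, s ++ t, h1, h2, h3, h4, by simp⟩)))
  · exact Or.inr (Or.inr (Or.inr (Or.inr ⟨i, p, a, e, v, d, s ++ t, h1, h2, h3, h4, h5, h6,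
      by simp⟩)))

end Pool.Agent.H656R2.AS
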