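import Mathlib

set_option autoImplicit false

/-! The 7-uniform morphism on eight letters and its finite checks. -/

namespace Pool.Agent.H656R2.AS

/-- The image of the letter `0`. -/
def pat : List (Fin 8) := [0, 1, 2, 0, 3, 5, 0]

/-- The image of a letter. -/
def h (b : Fin 8) : List (Fin 8) := pat.map (· + b)

/-- The morphism. -/
def H (w : List (Fin 8)) : List (Fin 8) := w.flatMap h

/-- Weights modulo 3955. -/
def lam (b : Fin 8) : ℕ := [1, 1513, 3179, 547, 1016, 2668, 2584, 2052].getD b.val 0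

/-- Table: letter, number of letters, weight. -/
def tab : List (ℕ × ℕ × ℕ) :=
  [(0, 0, 0), (0, 1, 1), (0, 2, 1514), (0, 3, 738), (0, 4, 739), (0, 5, 1286), (0, 6, 3954), (1, 0, 0), (1, 1, 1513), (1, 2, 737), (1, 3, 1284), (1, 4, 2797), (1, 5, 3813), (1, 6, 2442), (2, 0, 0), (2, 1, 3179), (2, 2, 3726), (2, 3, 787), (2, 4, 11), (2, 5, 2679), (2, 6, 776), (3, 0, 0), (3, 1, 547), (3, 2, 1563), (3, 3, 276), (3, 4, 823), (3, 5, 3407), (3, 6, 3408), (4, 0, 0), (4, 1, 1016), (4, 2, 3684), (4, 3, 2313), (4, 4, 3329), (4, 5, 1426), (4, 6, 2939), (5, 0, 0), (5, 1, 2668), (5, 2, 1297), (5, 3, 3349), (5, 4, 2062), (5, 5, 2063), (5, 6, 1287), (6, 0, 0), (6, 1, 2584), (6, 2, 681), (6, 3, 682), (6, 4, 3266), (6, 5, 824), (6, 6, 1371), (7, 0, 0), (7, 1, 2052), (7, 2, 2053), (7, 3, 3566), (7, 4, 1663), (7, 5, 887), (7, 6, 1903)]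

/-- Repetition. -/
def rep (e : ℕ) (w : List (Fin 8)) : List (Fin 8) := if e = 0 then [] else w

/-- Check of one choice. -/
def good (b0 b1 b2 : Fin 8) (t0 t1 t2 e0 e1 e2 : ℕ) : Bool :=
  (e0 == 0 || t0 != 0) && (e1 == 0 || t1 != 0) && (e2 == 0 || t2 != 0) &&
  (((h b0).take t0 ++ (h b2).take t2 ++ rep e1 (h b1 ++ h b1)).isPerm
    ((h b1).take t1 ++ (h b1).take t1 ++ rep e0 (h b0) ++ rep e2 (h b2)))

/-- Check of a triple of positions. -/
def chk3 (b0 t0 s0 b1 t1 s1 b2 t2 s2 : ℕ) : Bool :=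
  bif (s0 + s2) % 3955 == (2 * s1) % 3955 then
    ([0, 1].any fun e0 => [0, 1].any fun e1 => [0, 1].any fun e2 =>
      good (Fin.ofNat 8 b0) (Fin.ofNat 8 b1) (Fin.ofNat 8 b2) t0 t1 t2 e0 e1 e2)
  else true

/-- The whole check. -/
def chkAll : Bool :=
  tab.all fun p0 => tab.all fun p1 => tab.all fun p2 =>
    chk3 p0.1 p0.2.1 p0.2.2 p1.1 p1.2.1 p1.2.2 p2.1 p2.2.1 p2.2.2

theorem chkAll_true : chkAll = true := by decide +kernel

end Pool.Agent.H656R2.AS
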