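import Pool.Agent.H656R2.AS.Base
import Pool.Agent.H656R2.AS.Tab

set_option autoImplicit false

/-! The morphism preserves abelian-square-freeness. -/

namespace Pool.Agent.H656R2.AS

/-- Weighted length. -/
def wt (f : Fin 8 → ℤ) (w : List (Fin 8)) : ℤ := (w.map f).sum

theorem wt_append (f : Fin 8 → ℤ) (v w : List (Fin 8)) : wt f (v ++ w) = wt f v + wt f w := by
  simp [wt]

theorem wt_nil (f : Fin 8 → ℤ) : wt f [] = 0 := rfl

theorem wt_cons (f : Fin 8 → ℤ) (b : Fin 8) (w : List (Fin 8)) : wt f (b :: w) = f b + wt f w := by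
  simp [wt]

theorem wt_perm (f : Fin 8 → ℤ) {v w : List (Fin 8)} (h : v.Perm w) : wt f v = wt f w :=
  (h.map f).sum_eq

theorem wt_eq (f : Fin 8 → ℤ) (w : List (Fin 8)) : wt f w = ∑ c, f c * (w.count c : ℤ) := by
  induction w with
  | nil => simp [wt]
  | cons b w ih =>
    rw [wt_cons, ih]
    have : ∀ c : Fin 8, f c * (((b :: w).count c : ℕ) : ℤ) =
        f c * ((w.count c : ℕ) : ℤ) + (if b = c then f c else 0) := by
      intro c
      rw [List.count_cons]
      by_cases hbc : b = c
      · subst hbc; simp; ring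
      · simp [hbc]
    simp only [this]
    rw [Finset.sum_add_distrib, Finset.sum_ite_eq]
    simp; ring

theorem bad_wt {w : List (Fin 8)} {i j k : ℕ} (hb : Bad w i j k) (f : Fin 8 → ℤ) :
    wt f (w.take i) + wt f (w.take k) = 2 * wt f (w.take j) := by
  simp only [wt_eq]
  rw [← Finset.sum_add_distrib, Finset.mul_sum]
  apply Finset.sum_congr rfl
  intro c _
  have := hb c
  simp only [pc] at this
  linear_combination (f c) * this

theorem H_append (v w : List (Fin 8)) : H (v ++ w) = H v ++ H w := by simp [H]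

theorem H_nil : H [] = [] := rfl

theorem H_cons (b : Fin 8) (w : List (Fin 8)) : H (b :: w) = h b ++ H w := by simp [H]

theorem h_length (b : Fin 8) : (h b).length = 7 := by simp [h, pat]

theorem H_length (w : List (Fin 8)) : (H w).length = 7 * w.length := by
  induction w with
  | nil => rfl
  | cons b w ih => rw [H_cons, List.length_append, h_length, ih, List.length_cons]; ring

theorem wt_H_dvd (w : List (Fin 8)) : (3955 : ℤ) ∣ wt (fun b => (lam b : ℤ)) (H w) := by
  induction w with
  | nil => simp [H_nil, wt_nil]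
  | cons b w ih =>
    rw [H_cons, wt_append]
    refine dvd_add ?_ ih
    revert b
    decide +kernel

/-- Dual vector. -/
def dv (c : Fin 8) (b : Fin 8) : ℤ :=
  [1503, -86, 397, -499, 418, -366, -58, -744].getD (b - c).val 0

theorem wt_dv (c b : Fin 8) : wt (dv c) (h b) = if b = c then 3955 else 0 := by
  revert c b
  decide +kernel

theorem wt_dv_H (c : Fin 8) (w : List (Fin 8)) : wt (dv c) (H w) = 3955 * (w.count c : ℤ) := by
  induction w with
  | nil => simp [H_nil, wt_nil]
  | cons b w ih =>
    rw [H_cons, wt_append, ih, wt_dv, List.count_cons]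
    by_cases hb : b = c
    · simp [hb]; ring
    · simp [hb]

theorem take_H (w : List (Fin 8)) (q t : ℕ) (hq : q ≤ w.length) :
    (H w).take (7 * q + t) = H (w.take q) ++ (H (w.drop q)).take t := by
  have e : H w = H (w.take q) ++ H (w.drop q) := by rw [← H_append, List.take_append_drop]
  have hl : (H (w.take q)).length = 7 * q := by
    rw [H_length, List.length_take, min_eq_left hq]
  rw [e, ← hl, List.take_length_add_append]

theorem pos (w : List (Fin 8)) (i : ℕ) (hi : i ≤ 7 * w.length) :
    ∃ (q t : ℕ) (b : Fin 8), i = 7 * q + t ∧ t < 7 ∧ q ≤ w.length ∧ (t ≠ 0 → q < w.length) ∧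
      (H w).take i = H (w.take q) ++ (h b).take t ∧
      ∀ e : ℕ, e < 2 → (e = 0 ∨ t ≠ 0) → H (w.take (q + e)) = H (w.take q) ++ rep e (h b) := by
  have hq : i / 7 ≤ w.length := by omega
  rcases Nat.eq_zero_or_pos (i % 7) with h0 | h0
  · refine ⟨i / 7, i % 7, 0, by omega, by omega, hq, by omega, ?_, ?_⟩
    · have : i = 7 * (i / 7) + 0 := by omega
      conv_lhs => rw [this]
      rw [take_H w (i / 7) 0 hq, h0]; simp
    · intro e he hc
      have : e = 0 := by omega
      subst this
      simp [rep]
  · have hq' : i / 7 < w.length := by omega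
    refine ⟨i / 7, i % 7, w[i / 7], by omega, by omega, hq, fun _ => hq', ?_, ?_⟩
    · have : i = 7 * (i / 7) + i % 7 := by omega
      conv_lhs => rw [this]
      rw [take_H w (i / 7) (i % 7) hq, List.drop_eq_getElem_cons hq', H_cons,
        List.take_append_of_le_length (by rw [h_length]; omega)]
    · intro e he hc
      have : e = 0 ∨ e = 1 := by omega
      rcases this with rfl | rfl
      · simp [rep]
      · rw [List.take_add_one, H_append]
        simp [rep, hq', H_cons, H_nil]

/-- Encoding weights. -/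
def enc (b : Fin 8) : ℕ := 64 ^ b.val

/-- Encoded prefix. -/
def pe (w : List (Fin 8)) (i : ℕ) : ℕ := ((w.take i).map enc).sum

/-- Check of short words. -/
def chkShort : Bool :=
  (List.finRange 8).all fun b => (List.finRange 8).all fun b' => b == b' ||
    (List.range 15).all fun k => (List.range k).all fun j => (List.range j).all fun i =>
      pe (h b ++ h b') i + pe (h b ++ h b') k != 2 * pe (h b ++ h b') j

theorem chkShort_true : chkShort = true := by decide +kernel

theorem wt_enc (w : List (Fin 8)) (i : ℕ) :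
    wt (fun b => (enc b : ℤ)) (w.take i) = (pe w i : ℕ) := by
  simp only [wt, pe]
  induction w.take i with
  | nil => rfl
  | cons b w ih => simp [ih]

theorem short (b b' : Fin 8) (hb : b ≠ b') {i j k : ℕ} (hij : i < j) (hjk : j < k) (hk : k ≤ 14) :
    ¬ Bad (h b ++ h b') i j k := by
  intro hbad
  have h1 := bad_wt hbad (fun b => (enc b : ℤ))
  simp only [wt_enc] at h1
  have h2 := chkShort_true
  simp only [chkShort, List.all_eq_true] at h2
  have h3 := h2 b (List.mem_finRange b) b' (List.mem_finRange b')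
  rw [Bool.or_eq_true] at h3
  rcases h3 with h3 | h3
  · exact hb (by simpa using h3)
  · rw [List.all_eq_true] at h3
    have h4 := h3 k (List.mem_range.2 (by omega))
    rw [List.all_eq_true] at h4
    have h5 := h4 j (List.mem_range.2 hjk)
    rw [List.all_eq_true] at h5
    have h6 := h5 i (List.mem_range.2 hij)
    simp only [bne_iff_ne, ne_eq] at h6
    apply h6
    exact_mod_cast h1

theorem tab_mem (b : Fin 8) (t : ℕ) (ht : t < 7) :
    (b.val, t, (((h b).take t).map lam).sum % 3955) ∈ tab := by
  have : ∀ b : Fin 8, ∀ t : Fin 7, (b.val, t.val, (((h b).take t.val).map lam).sum % 3955) ∈ tab := by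
    decide +kernel
  exact this b ⟨t, ht⟩

theorem wt_lam (w : List (Fin 8)) :
    wt (fun b => (lam b : ℤ)) w = ((w.map lam).sum : ℕ) := by
  simp only [wt]
  induction w with
  | nil => rfl
  | cons b w ih => simp [ih]

theorem exists_good (b0 b1 b2 : Fin 8) (t0 t1 t2 : ℕ) (h0 : t0 < 7) (h1 : t1 < 7) (h2 : t2 < 7)
    (hm : ((((h b0).take t0).map lam).sum + (((h b2).take t2).map lam).sum) % 3955 =
      (2 * (((h b1).take t1).map lam).sum) % 3955) :
    ∃ e0 e1 e2 : ℕ, e0 < 2 ∧ e1 < 2 ∧ e2 < 2 ∧ (e0 = 0 ∨ t0 ≠ 0) ∧ (e1 = 0 ∨ t1 ≠ 0) ∧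
      (e2 = 0 ∨ t2 ≠ 0) ∧
      ((h b0).take t0 ++ (h b2).take t2 ++ rep e1 (h b1 ++ h b1)).Perm
        ((h b1).take t1 ++ (h b1).take t1 ++ rep e0 (h b0) ++ rep e2 (h b2)) := by
  have hc := chkAll_true
  simp only [chkAll, List.all_eq_true] at hc
  have := hc _ (tab_mem b0 t0 h0) _ (tab_mem b1 t1 h1) _ (tab_mem b2 t2 h2)
  simp only [chk3] at this
  have hcond : (((((h b0).take t0).map lam).sum % 3955 + (((h b2).take t2).map lam).sum % 3955) % 3955 ==
      2 * ((((h b1).take t1).map lam).sum % 3955) % 3955) = true := by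
    rw [beq_iff_eq]; omega
  rw [hcond, cond_true] at this
  simp only [List.any_eq_true, Fin.ofNat_eq_cast, Fin.cast_val_eq_self] at this
  obtain ⟨e0, he0, e1, he1, e2, he2, hg⟩ := this
  have f0 : e0 < 2 := by
    simp only [List.mem_cons, List.not_mem_nil, or_false] at he0; omega
  have f1 : e1 < 2 := by
    simp only [List.mem_cons, List.not_mem_nil, or_false] at he1; omega
  have f2 : e2 < 2 := by
    simp only [List.mem_cons, List.not_mem_nil, or_false] at he2; omega
  simp only [good, Bool.and_eq_true, Bool.or_eq_true, beq_iff_eq, bne_iff_ne, ne_eq,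
    List.isPerm_iff] at hg
  obtain ⟨⟨⟨g0, g1⟩, g2⟩, hp⟩ := hg
  exact ⟨e0, e1, e2, f0, f1, f2, g0, g1, g2, hp⟩

theorem wt_rep (f : Fin 8 → ℤ) (e : ℕ) (w : List (Fin 8)) :
    wt f (rep e w) = if e = 0 then 0 else wt f w := by
  by_cases he : e = 0
  · simp [rep, he, wt_nil]
  · simp [rep, he]

theorem AF_H {w : List (Fin 8)} (hw : AF w) : AF (H w) := by
  apply AF_of_not_bad
  intro i j k hij hjk hk hbad
  rw [H_length] at hk
  obtain ⟨q0, t0, b0, ei, ht0, hq0, hs0, hT0, hE0⟩ := pos w i (by omega)
  obtain ⟨q1, t1, b1, ej, ht1, hq1, hs1, hT1, hE1⟩ := pos w j (by omega)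
  obtain ⟨q2, t2, b2, ek, ht2, hq2, hs2, hT2, hE2⟩ := pos w k (by omega)
  -- the modular equation
  have hm : ((((h b0).take t0).map lam).sum + (((h b2).take t2).map lam).sum) % 3955 =
      (2 * (((h b1).take t1).map lam).sum) % 3955 := by
    have h1 := bad_wt hbad (fun b => (lam b : ℤ))
    rw [hT0, hT1, hT2, wt_append, wt_append, wt_append, wt_lam ((h b0).take t0),
      wt_lam ((h b1).take t1), wt_lam ((h b2).take t2)] at h1
    obtain ⟨a0, ha0⟩ := wt_H_dvd (w.take q0)
    obtain ⟨a1, ha1⟩ := wt_H_dvd (w.take q1)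
    obtain ⟨a2, ha2⟩ := wt_H_dvd (w.take q2)
    rw [ha0, ha1, ha2] at h1
    omega
  obtain ⟨e0, e1, e2, f0, f1, f2, g0, g1, g2, hp⟩ := exists_good b0 b1 b2 t0 t1 t2 ht0 ht1 ht2 hm
  have hbad' : Bad w (q0 + e0) (q1 + e1) (q2 + e2) := by
    intro c
    have h1 := bad_wt hbad (dv c)
    have h2 := wt_perm (dv c) hp
    have k0 := congrArg (wt (dv c)) (hE0 e0 f0 g0)
    have k1 := congrArg (wt (dv c)) (hE1 e1 f1 g1)
    have k2 := congrArg (wt (dv c)) (hE2 e2 f2 g2)
    rw [hT0, hT1, hT2] at h1
    simp only [wt_append, wt_rep, wt_dv_H] at h1 h2 k0 k1 k2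
    simp only [pc]
    split_ifs at h2 k0 k1 k2 <;> omega
  have hlen : q0 + e0 + (q2 + e2) = 2 * (q1 + e1) := by
    have h1 := bad_wt hbad' (fun _ => 1)
    have h2 : ∀ p, p ≤ w.length → wt (fun _ => 1) (w.take p) = p := by
      intro p hp
      simp [wt, hp]
    rw [h2 _ (by omega), h2 _ (by omega), h2 _ (by omega)] at h1
    exact_mod_cast h1
  by_cases hlt : q0 + e0 < q1 + e1
  · exact not_bad_of_AF hw hlt (by omega) (by omega) hbad'
  · have hq : q2 ≤ q0 + 1 := by omega
    -- the short case
    have hq0' : q0 < w.length := by omega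
    have hshift : ∀ t, 7 * q0 ≤ t →
        (H w).take t = H (w.take q0) ++ (H (w.drop q0)).take (t - 7 * q0) := by
      intro t ht
      rw [← take_H w q0 _ hq0]
      congr 1
      omega
    have hb2 : Bad (H (w.drop q0)) (i - 7 * q0) (j - 7 * q0) (k - 7 * q0) := by
      intro c
      have := hbad c
      simp only [pc] at this ⊢
      rw [hshift i (by omega), hshift j (by omega), hshift k (by omega)] at this
      simp only [List.count_append] at this
      push_cast at this
      linarith
    rw [List.drop_eq_getElem_cons hq0', H_cons] at hb2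
    by_cases hq0'' : q0 + 1 < w.length
    · rw [List.drop_eq_getElem_cons hq0'', H_cons, ← List.append_assoc] at hb2
      have hne : w[q0] ≠ w[q0 + 1] := by
        intro he
        refine hw (w.take q0) [w[q0]] [w[q0 + 1]] (w.drop (q0 + 2)) ?_ (by simp) (by rw [he])
        rw [List.append_assoc, List.append_assoc]
        conv_lhs => rw [← List.take_append_drop q0 w]
        congr 1
        rw [List.drop_eq_getElem_cons hq0', List.drop_eq_getElem_cons hq0'']
        simp
      refine short _ _ hne (i := i - 7 * q0) (j := j - 7 * q0) (k := k - 7 * q0) (by omega)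
        (by omega) (by omega) ?_
      intro c
      have := hb2 c
      have hl : (h w[q0] ++ h w[q0 + 1]).length = 14 := by simp [h_length]
      simp only [pc] at this ⊢
      rw [List.take_append_of_le_length (i := i - 7 * q0) (l₁ := h w[q0] ++ h w[q0 + 1]) (by omega),
        List.take_append_of_le_length (i := j - 7 * q0) (l₁ := h w[q0] ++ h w[q0 + 1]) (by omega),
        List.take_append_of_le_length (i := k - 7 * q0) (l₁ := h w[q0] ++ h w[q0 + 1]) (by omega)] at this
      exact this
    · have hd : w.drop (q0 + 1) = [] := by simp; omega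
      rw [hd, H_nil, List.append_nil] at hb2
      have hne : w[q0] ≠ w[q0] + 1 := by
        generalize w[q0] = b
        revert b; decide
      refine short _ _ hne (i := i - 7 * q0) (j := j - 7 * q0) (k := k - 7 * q0) (by omega)
        (by omega) (by omega) ?_
      intro c
      have := hb2 c
      have hl : (h w[q0]).length = 7 := by simp [h_length]
      simp only [pc] at this ⊢
      rw [List.take_append_of_le_length (i := i - 7 * q0) (l₁ := h w[q0]) (by omega),
        List.take_append_of_le_length (i := j - 7 * q0) (l₁ := h w[q0]) (by omega),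
        List.take_append_of_le_length (i := k - 7 * q0) (l₁ := h w[q0]) (by omega)]
      exact this

end Pool.Agent.H656R2.AS
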