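import Pool.Agent.H656R2.AS.Lang

set_option autoImplicit false

/-! No prefix of the infinite word is in the language. -/

namespace Pool.Agent.H656R2.AS

theorem W_prefix {n m : ℕ} (h : n ≤ m) : ∃ r, W m = W n ++ r := by
  induction m, h using Nat.le_induction with
  | base => exact ⟨[], by simp⟩
  | succ m _ ih =>
    obtain ⟨r, hr⟩ := ih
    exact ⟨r ++ cb m, by rw [W, hr]; simp⟩

theorem W_next {N n : ℕ} {r : List (Fin 24)} (h : W N = W n ++ r) (hr : r ≠ []) :
    ∃ r', r = cb n ++ r' ∧ W N = W (n + 1) ++ r' := by
  have hlt : n < N := by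
    by_contra hc
    push Not at hc
    obtain ⟨r0, h0⟩ := W_prefix hc
    have := congrArg List.length h
    have h1 := congrArg List.length h0
    have h2 : 0 < r.length := List.length_pos_iff.2 hr
    simp only [List.length_append] at this h1
    omega
  obtain ⟨r', h'⟩ := W_prefix (Nat.succ_le_of_lt hlt)
  have h1 : W (n + 1) = W n ++ cb n := rfl
  have h'' : W N = W (n + 1) ++ r' := h'
  refine ⟨r', ?_, h''⟩
  rw [h'', h1, List.append_assoc] at h
  exact (List.append_cancel_left h).symm

theorem cut (N : ℕ) (p q : List (Fin 24)) (h : W N = p ++ q)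
    (hc : ∀ c d, c ∈ p.getLast? → d ∈ q.head? → cls c ≠ cls d) : ∃ n, p = W n := by
  induction N generalizing q with
  | zero =>
    have : p = [] := by
      have := congrArg List.length h
      simp [W] at this
      exact List.length_eq_zero_iff.1 (by omega)
    exact ⟨0, this⟩
  | succ N ih =>
    have h1 : W (N + 1) = W N ++ cb N := rfl
    rw [h1] at h
    by_cases hl : p.length ≤ (W N).length
    · obtain ⟨E, h2, h3⟩ := split_le h.symm hl
      rcases E with _ | ⟨e, E⟩
      · exact ⟨N, by simpa using h2.symm⟩
      · refine ih (e :: E) h2 ?_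
        intro c d hc1 hd
        refine hc c d hc1 ?_
        rw [h3]
        simpa using hd
    · push Not at hl
      obtain ⟨E, h2, h3⟩ := split_le h hl.le
      rcases q with _ | ⟨d, q⟩
      · exact ⟨N + 1, by rw [h1, h]; simp⟩
      · exfalso
        have hE : E ≠ [] := by
          rintro rfl
          rw [h2] at hl
          simp at hl
        obtain ⟨E', c, rfl⟩ : ∃ E' c, E = E' ++ [c] :=
          ⟨E.dropLast, E.getLast hE, (List.dropLast_append_getLast hE).symm⟩
        have := hc c d (by rw [h2, ← List.append_assoc]; simp) (by simp)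
        apply this
        rw [cls_cb (n := N) (a := c) (by rw [h3]; simp), cls_cb (n := N) (a := d) (by rw [h3]; simp)]

theorem block {n m : ℕ} {g : List (Fin 24)} {i : ZMod 3} (h : W m = W n ++ g) (hg : g ≠ [])
    (hi : ∀ a ∈ g, cls a = i) : m = n + 1 ∧ g = cb n ∧ i = n := by
  obtain ⟨r', h1, h2⟩ := W_next h hg
  have hin : i = n := by
    obtain ⟨a, ha⟩ := List.exists_mem_of_ne_nil _ (cb_ne_nil n)
    rw [← hi a (by rw [h1]; simp [ha]), cls_cb ha]
  rcases r' with _ | ⟨x, r'⟩
  · refine ⟨?_, by simpa using h1, hin⟩
    rw [List.append_nil] at h2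
    by_contra hne
    rcases Nat.lt_or_gt_of_ne hne with hlt | hlt
    · obtain ⟨r, hr⟩ := W_prefix (Nat.succ_le_of_lt hlt)
      have : W (m + 1) = W m ++ cb m := rfl
      have e1 := congrArg List.length hr
      have e2 := congrArg List.length h2
      have e3 := congrArg List.length this
      have e4 : 0 < (cb m).length := List.length_pos_iff.2 (cb_ne_nil m)
      simp only [List.length_append, Nat.succ_eq_add_one] at e1 e2 e3
      omega
    · obtain ⟨r, hr⟩ := W_prefix (Nat.succ_le_of_lt hlt)
      have : W (n + 1 + 1) = W (n + 1) ++ cb (n + 1) := rfl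
      have e1 := congrArg List.length hr
      have e2 := congrArg List.length h2
      have e3 := congrArg List.length this
      have e4 : 0 < (cb (n + 1)).length := List.length_pos_iff.2 (cb_ne_nil (n + 1))
      simp only [List.length_append, Nat.succ_eq_add_one] at e1 e2 e3
      omega
  · exfalso
    obtain ⟨r'', h3, _⟩ := W_next h2 (by simp)
    obtain ⟨a, ha⟩ := List.exists_mem_of_ne_nil _ (cb_ne_nil (n + 1))
    have e1 : cls a = i := hi a (by rw [h1, h3]; simp [ha])
    rw [cls_cb ha, hin] at e1
    exact cast_ne n e1.symm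

theorem Bb_length (i : ZMod 3) (c : Fin 8) : (Bb i c).length = 7 := by
  simp [Bb, h_length]

theorem cls_Bb {i : ZMod 3} {c : Fin 8} {a : Fin 24} (ha : a ∈ Bb i c) : cls a = i := by
  simp only [Bb, List.mem_map] at ha
  obtain ⟨b, _, rfl⟩ := ha
  exact cls_code _ _

theorem flatMap_Bb_length (i : ZMod 3) (y : List (Fin 8)) :
    (y.flatMap (Bb i)).length = 7 * y.length := by
  induction y with
  | nil => rfl
  | cons c y ih => rw [List.flatMap_cons, List.length_append, Bb_length, ih, List.length_cons]; ring

theorem cb_succ (n : ℕ) : cb (n + 1) = (bk n).reverse.flatMap (Bb ((n : ZMod 3) + 1)) := by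
  have : ((n + 1 : ℕ) : ZMod 3) = (n : ZMod 3) + 1 := Nat.cast_succ n
  rw [cb, bk, H, List.reverse_flatMap, List.map_flatMap, this]
  rfl

theorem chain (N : ℕ) (p s : List (Fin 24)) (c d : Fin 24) (h : W N = p ++ ([c, d] ++ s)) :
    cls d = cls c ∨ cls d = cls c + 1 := by
  induction N generalizing s with
  | zero =>
    have := congrArg List.length h
    simp [W] at this
  | succ N ih =>
    have h1 : W (N + 1) = W N ++ cb N := rfl
    rw [h1] at h
    by_cases hl : (p ++ [c]).length ≤ (W N).length
    · obtain ⟨E, h2, h3⟩ := split_le (A := p ++ [c]) (B := d :: s) (C := W N) (D := cb N)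
        (by rw [h]; simp) hl
      rcases E with _ | ⟨e, E⟩
      · rw [List.append_nil] at h2
        have hN : ∃ m, N = m + 1 := by
          rcases N with _ | m
          · simp [W] at h2
          · exact ⟨m, rfl⟩
        obtain ⟨m, rfl⟩ := hN
        obtain ⟨a, ha1, ha2⟩ := suffix_mem h2 (by simp)
        have hac : a = c := by simpa using ha1
        subst hac
        have hd : cls d = ((m + 1 : ℕ) : ZMod 3) := cls_cb (by
          have : cb (m + 1) = d :: s := by simpa using h3.symm
          rw [this]; simp)
        right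
        rw [hd, ha2, Nat.cast_succ]
      · have he : d = e := by
          have := congrArg List.head? h3
          simpa using this
        subst he
        exact ih E (by rw [h2]; simp)
    · push Not at hl
      have hl' : (W N).length ≤ p.length := by
        simp only [List.length_append, List.length_cons, List.length_nil] at hl
        omega
      obtain ⟨E, h2, h3⟩ := split_le h hl'
      left
      rw [cls_cb (n := N) (a := c) (by rw [h3]; simp), cls_cb (n := N) (a := d) (by rw [h3]; simp)]

theorem head_append {α : Type*} {a b : List α} {d : α} (h : d ∈ (a ++ b).head?) :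
    d ∈ a ∨ d ∈ b.head? := by
  rcases a with _ | ⟨x, a⟩
  · right; simpa using h
  · left
    have : x = d := by simpa using h
    simp [this]

theorem last_append {α : Type*} {a b : List α} {d : α} (hb : b ≠ [])
    (h : d ∈ (a ++ b).getLast?) : d ∈ b := by
  rw [List.getLast?_append_of_ne_nil _ hb] at h
  exact List.mem_of_getLast? h

/-- The main cutting argument. -/
theorem find_block {N : ℕ} {p g r : List (Fin 24)} {i : ZMod 3} (h : W N = p ++ (g ++ r))
    (hp : p ∈ PW i) (hg : g ≠ []) (hgi : ∀ a ∈ g, cls a = i) (hr : r ≠ [])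
    (hri : ∀ d, d ∈ r.head? → cls d ≠ i) :
    ∃ n : ℕ, i = n ∧ g = cb n ∧ ∃ r', r = cb (n + 1) ++ r' ∧ W N = W (n + 2) ++ r' := by
  obtain ⟨n, hn⟩ := cut N p (g ++ r) h (by
    intro c d hc hd
    have hd' : d ∈ g := by
      rcases g with _ | ⟨x, g⟩
      · exact absurd rfl hg
      · have : x = d := by simpa using hd
        simp [this]
    rw [hgi d hd']
    exact hp c hc)
  obtain ⟨m, hm⟩ := cut N (p ++ g) r (by rw [h]; simp) (by
    intro c d hc hd
    rw [hgi c (last_append hg hc)]
    exact (hri d hd).symm)
  obtain ⟨h1, h2, h3⟩ := block (n := n) (m := m) (g := g) (by rw [← hm, hn]) hg hgi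
  subst h1
  refine ⟨n, h3, h2, ?_⟩
  have h4 : W N = W (n + 1) ++ r := by rw [h, ← hm]; simp
  exact W_next h4 hr

theorem sound (N : ℕ) : W N ∉ Lg := by
  intro hmem
  rw [mem_Lg] at hmem
  rcases hmem with ⟨p, c, d, s, hw, h1, h2⟩ | ⟨c, s, hw, h1⟩ | ⟨c, d, s, hw, h1⟩ |
    ⟨i, c, p, u, e, f, s, h1, h2, h3, h4, hw⟩ |
    ⟨i, p, a, e, v, d, s, h1, h2, h3, h4, h5, h6, hw⟩
  · rcases chain N p s c d hw with h | h
    · exact h1 h
    · exact h2 h
  · have e0 : W N = W 0 ++ (c :: s) := by rw [hw]; rfl
    obtain ⟨r', h2, _⟩ := W_next e0 (by simp)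
    apply h1
    have : cb 0 = [code 0 0] := by
      simp [cb, bk]
    rw [this] at h2
    simpa using congrArg List.head? h2
  · have e0 : W N = W 0 ++ (c :: d :: s) := by rw [hw]; rfl
    obtain ⟨r', h2, h3⟩ := W_next e0 (by simp)
    have : cb 0 = [code 0 0] := by
      simp [cb, bk]
    rw [this] at h2
    simp only [List.cons_append, List.nil_append, List.cons.injEq] at h2
    obtain ⟨r'', h4, _⟩ := W_next h3 (by rw [← h2.2]; simp)
    rw [← h2.2] at h4
    have hd : d ∈ cb 1 := by
      rcases hcb : cb 1 with _ | ⟨x, xs⟩
      · exact absurd hcb (cb_ne_nil 1)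
      · rw [zero_add, hcb] at h4
        have : d = x := by simpa using congrArg List.head? h4
        simp [this]
    have := cls_cb hd
    rw [h1] at this
    revert this
    decide
  · obtain ⟨u2, v1, rfl, hu2, hv1, hl⟩ := h3
    obtain ⟨z, d, rfl, hz, hz7, hdi, hnp⟩ := h4
    have hne : ∀ j : ZMod 3, j + 1 ≠ j := by decide
    obtain ⟨n, hi, hg, r', hr, hW⟩ := find_block (N := N) (p := p) (g := u ++ ([code i c] ++ u2))
      (r := v1 ++ ((z ++ [d]) ++ s)) (i := i) (by rw [hw]; simp) h1 (by simp) (by
        intro a ha
        simp only [List.mem_append, List.mem_singleton] at ha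
        rcases ha with ha | ha | ha
        · exact h2 a ha
        · rw [ha, cls_code]
        · exact hu2 a ha) (by simp) (by
        intro d' hd'
        rcases head_append hd' with h | h
        · rw [hv1 d' h]; exact hne i
        · rw [List.append_assoc] at h
          rcases head_append h with h | h
          · rw [cls_Bb (hz.subset h)]; exact hne i
          · have : d = d' := by simpa using h
            rw [← this]; exact hdi)
    have hbk : bk n = u.map sym ++ ([c] ++ u2.map sym) := by
      have e1 := congrArg (List.map sym) hg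
      have e2 : (cb n).map sym = bk n := by
        rw [cb, List.map_map]
        conv_rhs => rw [← List.map_id (bk n)]
        apply List.map_congr_left
        intro b _
        exact sym_code _ _
      rw [e2] at e1
      rw [← e1]
      simp [sym_code]
    rw [cb_succ, hbk, ← hi] at hr
    simp only [List.reverse_append, List.reverse_cons, List.reverse_nil, List.nil_append,
      List.flatMap_append, List.flatMap_cons, List.flatMap_nil, List.append_nil,
      List.append_assoc] at hr
    have e3 := List.append_inj hr (by rw [flatMap_Bb_length]; simp [hl])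
    have e4 : (z ++ [d]) ++ s = Bb (i + 1) c ++
        ((u.map sym).reverse.flatMap (Bb (i + 1)) ++ r') := by
      simpa using e3.2
    obtain ⟨E, h5, _⟩ := split_le e4 (by rw [Bb_length]; simp; omega)
    exact hnp ⟨E, h5.symm⟩
  · obtain ⟨u2, v1, rfl, hu2, hv1, hl⟩ := h3
    have hne : ∀ j : ZMod 3, j + 1 ≠ j := by decide
    obtain ⟨n, hi, hg, r', hr, hW⟩ := find_block (N := N) (p := p) (g := [a] ++ u2)
      (r := (v1 ++ v) ++ ([d] ++ s)) (i := i) (by rw [hw]; simp) h1 (by simp) (by
        intro b hb
        simp only [List.mem_append, List.mem_singleton] at hb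
        rcases hb with hb | hb
        · rw [hb, h2]
        · exact hu2 b hb) (by simp) (by
        intro d' hd'
        rcases head_append hd' with h | h
        · rcases List.mem_append.1 h with h | h
          · rw [hv1 d' h]; exact hne i
          · rw [h4 d' h]; exact hne i
        · have : d = d' := by simpa using h
          rw [← this, h6]; exact hne i)
    have hlen := cb_length_succ n
    rw [← hg] at hlen
    have e3 := List.append_inj hr (by
      rw [hlen]; simp [hl, h5]; ring)
    obtain ⟨r'', h7, _⟩ := W_next hW (by rw [← e3.2]; simp)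
    rw [← e3.2] at h7
    have hd : d ∈ cb (n + 2) := by
      rcases hcb : cb (n + 2) with _ | ⟨x, xs⟩
      · exact absurd hcb (cb_ne_nil _)
      · rw [hcb] at h7
        have : d = x := by simpa using congrArg List.head? h7
        simp [this]
    have e5 := cls_cb hd
    rw [h6, hi, ← Nat.cast_succ] at e5
    exact cast_ne (n + 1) e5

end Pool.Agent.H656R2.AS
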