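import Pool.Agent.H656R2.AS.Morph

set_option autoImplicit false

/-! The infinite word `cb 0 ++ cb 1 ++ ...` is abelian-square-free. -/

namespace Pool.Agent.H656R2.AS

/-- Class of a letter. -/
def cls (a : Fin 24) : ZMod 3 := ((a.val / 8 : ℕ) : ZMod 3)

/-- Symbol of a letter. -/
def sym (a : Fin 24) : Fin 8 := ⟨a.val % 8, Nat.mod_lt _ (by norm_num)⟩

/-- Letter with given class and symbol. -/
def code (i : ZMod 3) (b : Fin 8) : Fin 24 :=
  ⟨8 * i.val + b.val, by have := ZMod.val_lt i; have := b.isLt; omega⟩

theorem cls_code (i : ZMod 3) (b : Fin 8) : cls (code i b) = i := by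
  revert i b; decide

theorem sym_code (i : ZMod 3) (b : Fin 8) : sym (code i b) = b := by
  revert i b; decide

theorem code_cls (a : Fin 24) : code (cls a) (sym a) = a := by
  revert a; decide

/-- Blocks. -/
def bk : ℕ → List (Fin 8)
  | 0 => [0]
  | n + 1 => (H (bk n)).reverse

/-- Coded blocks. -/
def cb (n : ℕ) : List (Fin 24) := (bk n).map (code (n : ZMod 3))

/-- The words. -/
def W : ℕ → List (Fin 24)
  | 0 => []
  | n + 1 => W n ++ cb n

theorem AF_singleton {α : Type*} (a : α) : AF [a] := by
  intro u x y v e hx hp
  have := congrArg List.length e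
  simp at this
  have h1 := hp.length_eq
  have h2 : 0 < x.length := List.length_pos_iff.2 hx
  omega

theorem AF_bk (n : ℕ) : AF (bk n) := by
  induction n with
  | zero => exact AF_singleton _
  | succ n ih => exact (AF_H ih).reverse

theorem AF_cb (n : ℕ) : AF (cb n) := (AF_bk n).map _ sym (sym_code _)

theorem bk_length (n : ℕ) : (bk n).length = 7 ^ n := by
  induction n with
  | zero => rfl
  | succ n ih => rw [bk, List.length_reverse, H_length, ih, pow_succ]; ring

theorem cb_length (n : ℕ) : (cb n).length = 7 ^ n := by rw [cb, List.length_map, bk_length]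

theorem cb_length_succ (n : ℕ) : (cb (n + 1)).length = 7 * (cb n).length := by
  rw [cb_length, cb_length, pow_succ]; ring

theorem cb_ne_nil (n : ℕ) : cb n ≠ [] := by
  intro h
  have := cb_length n
  rw [h] at this
  have h7 : 0 < 7 ^ n := by positivity
  rw [List.length_nil] at this
  omega

theorem cls_cb {n : ℕ} {a : Fin 24} (ha : a ∈ cb n) : cls a = n := by
  simp only [cb, List.mem_map] at ha
  obtain ⟨b, _, rfl⟩ := ha
  exact cls_code _ _

theorem W_length_lt (n : ℕ) : (W n).length < (cb n).length := by
  induction n with
  | zero => rw [cb_length]; simp [W]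
  | succ n ih => rw [cb_length_succ, W, List.length_append]; omega

theorem cast_ne (n : ℕ) : (n : ZMod 3) ≠ ((n + 1 : ℕ) : ZMod 3) := by
  rw [Nat.cast_succ]
  generalize (n : ZMod 3) = i
  revert i; decide

theorem cast_ne2 (n : ℕ) : (n : ZMod 3) ≠ ((n + 2 : ℕ) : ZMod 3) := by
  rw [Nat.cast_add]
  generalize (n : ZMod 3) = i
  revert i; decide

/-- If a nonempty suffix of `W (m + 1)` is `t`, it contains a letter of class `m`. -/
theorem suffix_mem {m : ℕ} {u t : List (Fin 24)} (h : W (m + 1) = u ++ t) (ht : t ≠ []) :
    ∃ a ∈ t, cls a = m := by
  refine ⟨t.getLast ht, List.getLast_mem ht, ?_⟩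
  have h1 : W (m + 1) ≠ [] := by rw [h]; simp [ht]
  have h2 : (W (m + 1)).getLast h1 = t.getLast ht := by
    simp only [h]
    exact List.getLast_append_of_ne_nil _ ht
  have h3 : (W (m + 1)).getLast h1 = (cb m).getLast (cb_ne_nil m) := by
    simp only [W]
    exact List.getLast_append_of_ne_nil _ (cb_ne_nil m)
  rw [← h2, h3]
  exact cls_cb (List.getLast_mem _)

theorem AF_W (n : ℕ) : AF (W n) := by
  induction n with
  | zero =>
    intro u x y v e hx
    simp only [W, List.append_assoc] at e
    have := congrArg List.length e
    have h2 : 0 < x.length := List.length_pos_iff.2 hx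
    simp at this
    omega
  | succ n ih =>
    intro u x y v e hx hp
    have hl := hp.length_eq
    have hx0 : 0 < x.length := List.length_pos_iff.2 hx
    have hW : W (n + 1) = W n ++ cb n := rfl
    rw [hW] at e
    by_cases ha : (u ++ x ++ y).length ≤ (W n).length
    · -- inside W n
      obtain ⟨E, h1, _⟩ := split_le e.symm ha
      exact ih u x y E h1 hx hp
    · push Not at ha
      by_cases hb : (W n).length ≤ u.length
      · rw [List.append_assoc, List.append_assoc] at e
        obtain ⟨E, h1, h2⟩ := split_le e hb
        exact AF_cb n E x y v (by rw [h2]; simp) hx hp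
      · push Not at hb
        -- n ≥ 1
        obtain ⟨m, rfl⟩ : ∃ m, n = m + 1 := by
          rcases n with _ | m
          · simp [W] at hb
          · exact ⟨m, rfl⟩
        by_cases hc : (W (m + 1)).length ≤ (u ++ x).length
        · rw [List.append_assoc (u ++ x)] at e
          obtain ⟨E, h1, h2⟩ := split_le e hc
          obtain ⟨x1, h3, h4⟩ := split_le h1 hb.le
          -- W (m+1) = u ++ x1, x = x1 ++ E
          have hx1 : x1 ≠ [] := by
            rintro rfl
            rw [h3] at hb
            simp at hb
          obtain ⟨a, ha1, ha2⟩ := suffix_mem h3 hx1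
          have hay : a ∈ y := hp.mem_iff.1 (by rw [h4]; simp [ha1])
          have : cls a = ((m + 1 : ℕ) : ZMod 3) := cls_cb (by rw [h2]; simp [hay])
          exact cast_ne m (ha2.symm.trans this)
        · push Not at hc
          obtain ⟨y1, h1, h2⟩ := split_le (A := u ++ x) (B := y ++ v) (C := W (m + 1))
            (D := cb (m + 1)) (by rw [e]; simp) hc.le
          -- W (m+1) = u ++ x ++ y1 ; y ++ v = y1 ++ cb (m+1)
          have hy1 : y1.length < y.length := by
            have := congrArg List.length h1
            simp only [List.length_append] at this ha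
            omega
          obtain ⟨y2, h3, h4⟩ := split_le h2.symm hy1.le
          -- y = y1 ++ y2, cb (m+1) = y2 ++ v
          have hy2 : y2 ≠ [] := by
            rintro rfl
            rw [h3] at hy1
            simp at hy1
          have hWm : W (m + 1) = W m ++ cb m := rfl
          by_cases hd : (u ++ x).length ≤ (W m).length
          · rw [hWm] at h1
            obtain ⟨E, h5, h6⟩ := split_le (A := u ++ x) (B := y1) (C := W m) (D := cb m) h1.symm hd
            have := congrArg List.length h6
            have h7 := W_length_lt m
            simp only [List.length_append] at this hd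
            omega
          · push Not at hd
            by_cases hf : (W m).length ≤ u.length
            · -- x inside cb m
              have hxa : ∀ a ∈ x, cls a = m := by
                intro a ha
                rw [hWm, List.append_assoc] at h1
                obtain ⟨E, h5, h6⟩ := split_le h1 hf
                exact cls_cb (by rw [h6]; simp [ha])
              obtain ⟨a, ha⟩ := List.exists_mem_of_ne_nil y2 hy2
              have h5 : cls a = ((m + 1 : ℕ) : ZMod 3) := cls_cb (by rw [h4]; simp [ha])
              have h6 : cls a = m := hxa a (hp.mem_iff.2 (by rw [h3]; simp [ha]))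
              exact cast_ne m (h6.symm.trans h5)
            · push Not at hf
              obtain ⟨k, rfl⟩ : ∃ k, m = k + 1 := by
                rcases m with _ | k
                · simp [W] at hf
                · exact ⟨k, rfl⟩
              rw [hWm] at h1
              obtain ⟨E, h5, h6⟩ := split_le h1 hd.le
              -- u ++ x = W (k+1) ++ E ; cb (k+1) = E ++ y1
              obtain ⟨x1, h7, h8⟩ := split_le h5 hf.le
              have hx1 : x1 ≠ [] := by
                rintro rfl
                rw [h7] at hf
                simp at hf
              obtain ⟨a, ha1, ha2⟩ := suffix_mem h7 hx1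
              have hay : a ∈ y := hp.mem_iff.1 (by rw [h8]; simp [ha1])
              rw [h3, List.mem_append] at hay
              rcases hay with hay | hay
              · have : cls a = ((k + 1 : ℕ) : ZMod 3) := cls_cb (by rw [h6]; simp [hay])
                exact cast_ne k (ha2.symm.trans this)
              · have : cls a = ((k + 1 + 1 : ℕ) : ZMod 3) := cls_cb (by rw [h4]; simp [hay])
                exact cast_ne2 k (ha2.symm.trans this)

end Pool.Agent.H656R2.AS
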